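import Pool.Agent.H30.Kl

set_option autoImplicit false

namespace Pool.Agent.Results.MP_6cdbe4_gt.Two

open Set Function Pool.Agent.H30.Kl
open scoped Classical

variable {A B C : UMet} {n : ℕ}

lemma lti {c : EReal} {u : Fin (n + 1) → EReal} : c < ⨅ i, u i ↔ ∀ i, c < u i :=
  ⟨fun h i => h.trans_le (iInf_le u i), fun h => by
    obtain ⟨i, e⟩ := exists_eq_ciInf_of_finite (f := u); exact e ▸ h i⟩

noncomputable def S (f : KHom A B) (x : Fin (n + 1) → A.X) (t : (SP n B).X) : EReal :=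
  ⨆ y : Fin (n + 1) → B.X, ⨆ _ : Quotient.mk (orb n B.X) y = t, ⨅ i, (f.1 (x i)).α (y i)

lemma ltS {f : KHom A B} {x : Fin (n + 1) → A.X} {t : (SP n B).X} {c : EReal} :
    c < S f x t ↔ ∃ y, Quotient.mk (orb n B.X) y = t ∧ ∀ i, c < (f.1 (x i)).α (y i) := by
  simp [S, lt_iSup_iff, lti]

lemma S_perm (f : KHom A B) (x : Fin (n + 1) → A.X) (σ : Equiv.Perm (Fin (n + 1))) (t : (SP n B).X) :
    S f (x ∘ σ) t = S f x t := eq_of_forall_lt_iff fun c => by
  rw [ltS, ltS]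
  exact ⟨fun ⟨y, e, h⟩ => ⟨y ∘ ⇑σ⁻¹, e ▸ Quotient.sound ⟨σ⁻¹, rfl⟩, fun i => by simpa using h (σ⁻¹ i)⟩,
    fun ⟨y, e, h⟩ => ⟨y ∘ σ, e ▸ Quotient.sound ⟨σ, rfl⟩, fun i => h (σ i)⟩⟩

noncomputable def SJ (f : KHom A B) (x : Fin (n + 1) → A.X) : J (SP n B) :=
  ⟨S f x, ((Finite.pi' fun i => (f.1 (x i)).fin).image (Quotient.mk (orb n B.X))).subset fun t ht => by
      obtain ⟨y, e, h⟩ := ltS.1 (bot_lt_iff_ne_bot.2 ht)
      exact ⟨y, fun i => (h i).ne', e⟩, by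
    choose y hy using fun i => (f.1 (x i)).top
    exact ⟨Quotient.mk _ y, top_unique (le_of_forall_lt fun c hc => ltS.2 ⟨y, rfl, fun i => (hy i).symm ▸ hc⟩)⟩⟩

noncomputable def std (n : ℕ) (f : KHom A B) : KHom (SP n A) (SP n B) :=
  ⟨Quotient.lift (SJ f) fun x y ⟨σ, e⟩ => J.ext (funext fun t => by rw [e]; exact S_perm f y σ t),
   ne_iff.2 fun s s' => Quotient.inductionOn₂ s s' fun x x' r hr t c hc => by
    obtain ⟨σ, e⟩ := (dP_le (x := x) (y := x')).1 le_rfl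
    obtain ⟨y, rfl, h⟩ := ltS.1 hc
    choose y' e1 e2 using fun i => ne_iff.1 f.2 _ _ r ((e i).trans_lt hr) _ c (h i)
    refine ⟨Quotient.mk _ y', ?_, (ltS.2 ⟨y', rfl, e2⟩).trans_eq (S_perm f x' σ _)⟩
    obtain ⟨i, hi⟩ := Finite.exists_max fun i => B.d (y i) (y' i)
    exact (dP_le.2 ⟨1, hi⟩).trans_lt (e1 i)⟩

lemma std_Phi (f : UHom A B) : std n (Phi f) = Phi (SPmap n f) :=
  Subtype.ext (funext fun s => Quotient.inductionOn s fun x => J.ext (funext fun t => eq_of_forall_lt_iff fun c =>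
    ltS.trans ⟨fun ⟨y, e, h⟩ => by
      obtain rfl : y = f.1 ∘ x := funext fun i => by_contra fun e1 => not_lt_bot ((h i).trans_eq (if_neg e1))
      exact ((h 0).trans_le le_top).trans_eq (if_pos e.symm).symm, fun h => by
      have e : t = (SPmap n f).1 (Quotient.mk _ x) := by_contra fun e1 => not_lt_bot (h.trans_eq (if_neg e1))
      exact ⟨f.1 ∘ x, e.symm, fun i => (h.trans_le le_top).trans_eq (if_pos rfl).symm⟩⟩))

lemma std_comp (g : KHom B C) (f : KHom A B) : std n (comp g f) = comp (std n g) (std n f) :=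
  Subtype.ext (funext fun s => Quotient.inductionOn s fun x => J.ext (funext fun u => eq_of_forall_lt_iff fun c =>
    ltS.trans ⟨fun ⟨z, e, h⟩ => by
      choose y hy using fun i => lt_iSup_iff.1 (h i)
      exact lt_iSup_iff.2 ⟨Quotient.mk _ y, lt_min (ltS.2 ⟨y, rfl, fun i => (lt_min_iff.1 (hy i)).1⟩)
        (ltS.2 ⟨z, e, fun i => (lt_min_iff.1 (hy i)).2⟩)⟩, fun h => by
      obtain ⟨t, ht⟩ := lt_iSup_iff.1 h
      obtain ⟨y, rfl, e1⟩ := ltS.1 (lt_min_iff.1 ht).1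
      obtain ⟨z, e2, e3⟩ := ltS.1 (lt_min_iff.1 ht).2
      exact ⟨z, e2, fun i => lt_iSup_iff.2 ⟨y i, lt_min (e1 i) (e3 i)⟩⟩⟩))

noncomputable def g (a : EReal) : EReal := if a = ⊥ then ⊥ else ⊤

lemma ltg {a c : EReal} : c < g a ↔ c < ⊤ ∧ ⊥ < a := by
  unfold g; split_ifs with h <;> simp [h, bot_lt_iff_ne_bot]

noncomputable def tw (f : KHom A B) : KHom A B :=
  ⟨fun x => ⟨fun y => g ((f.1 x).α y), (f.1 x).fin.subset fun y h e => h (if_pos e),
    (f.1 x).top.imp fun y h => by simp [g, h]⟩, ne_iff.2 fun x x' r hr y c hc =>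
    (ne_iff.1 f.2 x x' r hr y ⊥ (ltg.1 hc).2).imp fun _ h => ⟨h.1, ltg.2 ⟨(ltg.1 hc).1, h.2⟩⟩⟩

lemma tw_Phi (f : UHom A B) : tw (Phi f) = Phi f :=
  Subtype.ext (funext fun x => J.ext (funext fun y => by
    show g (if y = f.1 x then ⊤ else ⊥) = if y = f.1 x then ⊤ else ⊥
    split_ifs <;> simp [g]))

lemma tw_comp (h : KHom B C) (f : KHom A B) : tw (comp h f) = comp (tw h) (tw f) :=
  Subtype.ext (funext fun x => J.ext (funext fun z => eq_of_forall_lt_iff fun c => by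
    show c < g (⨆ y, _) ↔ c < ⨆ y, min (g _) (g _)
    simp only [ltg, lt_iSup_iff, lt_min_iff]
    exact ⟨fun ⟨a, y, b, d⟩ => ⟨y, ⟨a, b⟩, a, d⟩, fun ⟨y, ⟨a, b⟩, _, d⟩ => ⟨a, y, b, d⟩⟩))

noncomputable def two : UMet :=
  ⟨Bool, fun x y => if x = y then 0 else 1, by simp, by simp, by simp⟩

noncomputable def f0 : KHom two two :=
  ⟨fun _ => ⟨fun y => cond y 0 ⊤, @toFinite Bool _ _, false, rfl⟩, ne_iff.2 fun x x' r hr y c hc =>
    ⟨y, ((two.zero y y).2 rfl).trans_lt ((d0 _ _).trans_lt hr), hc⟩⟩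

theorem result (n : ℕ) : ∃ (F G : Extn n) (A B : UMet) (f : KHom A B), F.map f ≠ G.map f := by
  refine ⟨⟨std n, fun A => (std_Phi _).trans (congrArg Phi (Subtype.ext (funext fun s =>
      Quotient.inductionOn s fun _ => rfl))), std_comp, std_Phi⟩,
    ⟨fun f => std n (tw f), fun A => by
      rw [tw_Phi]; exact (std_Phi _).trans (congrArg Phi (Subtype.ext (funext fun s =>
        Quotient.inductionOn s fun _ => rfl))), fun g f => by rw [tw_comp, std_comp],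
      fun f => by rw [tw_Phi, std_Phi]⟩, two, two, f0, fun h => ?_⟩
  have e : S (n := n) f0 (fun _ => true) (Quotient.mk _ fun _ => true) =
      S (tw f0) (fun _ => true) (Quotient.mk _ fun _ => true) :=
    congrArg (fun k : KHom (SP n two) (SP n two) =>
      (k.1 (Quotient.mk _ fun _ => true)).α (Quotient.mk _ fun _ => true)) h
  obtain ⟨y, e1, e2⟩ := ltS.1 ((ltS.2 ⟨_, rfl, fun i => ltg.2 ⟨EReal.zero_lt_top, EReal.bot_lt_zero⟩⟩).trans_eq e.symm)
  obtain ⟨σ, rfl⟩ := Quotient.exact e1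
  exact lt_irrefl (0 : EReal) (e2 0)

end Pool.Agent.Results.MP_6cdbe4_gt.Two
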